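import Pool.Agent.U515.KE.Sum

/-!
# The entropy numbers of absolutely convex hulls of slowly decreasing sequences
-/

namespace Pool.Agent.U515.KE

open Finset

section Round

variable {E : Type*} [NormedAddCommGroup E] [InnerProductSpace ℝ E]

/-- rounding one coefficient -/
theorem round_one (x u : E) (hu : ‖u‖ ≤ 1) (c h w A : ℝ) (hh : 0 < h) (hA : 0 ≤ A) :
    ∃ z : ℤ, A * ‖x + (h * z - c) • u‖ ^ 2 + w * |(z:ℝ)| ≤
      A * ‖x‖ ^ 2 + (A * h * |c| + w * (|c| / h)) := by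
  have key : ∀ s : ℝ, ‖x + s • u‖ ^ 2 = ‖x‖ ^ 2 + 2 * s * inner ℝ x u + s ^ 2 * ‖u‖ ^ 2 := by
    intro s
    rw [norm_add_sq_real, inner_smul_right, norm_smul, mul_pow, Real.norm_eq_abs, sq_abs]
    ring
  set t : ℝ := c / h with ht
  set f : ℝ := Int.fract t with hf
  have hf0 : 0 ≤ f := Int.fract_nonneg t
  have hf1 : f < 1 := Int.fract_lt_one t
  have hc : c = h * t := by rw [ht]; field_simp
  have hfl : ((⌊t⌋ : ℤ) : ℝ) = t - f := by rw [hf]; exact (Int.self_sub_fract t).symm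
  -- absolute values
  have habs : (1 - f) * |((⌊t⌋ : ℤ) : ℝ)| + f * |((⌊t⌋ + 1 : ℤ) : ℝ)| = |t| ∧ f * (1 - f) ≤ |t| := by
    push_cast
    rcases le_or_gt 0 t with h0 | h0
    · have h1 : (0:ℝ) ≤ ((⌊t⌋ : ℤ) : ℝ) := by exact_mod_cast Int.floor_nonneg.2 h0
      rw [abs_of_nonneg h1, abs_of_nonneg (by linarith), abs_of_nonneg h0]
      refine ⟨by rw [hfl]; ring, ?_⟩
      nlinarith
    · have h1 : ((⌊t⌋ : ℤ) : ℝ) + 1 ≤ 0 := by
        have h2 : ⌊t⌋ < 0 := Int.floor_lt.2 (by exact_mod_cast h0)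
        exact_mod_cast (by omega : ⌊t⌋ + 1 ≤ 0)
      rw [abs_of_nonpos (by linarith), abs_of_nonpos h1, abs_of_neg h0]
      refine ⟨by rw [hfl]; ring, ?_⟩
      nlinarith
  obtain ⟨hab, hff⟩ := habs
  by_contra hcon
  push Not at hcon
  have h1 := hcon ⌊t⌋
  have h2 := hcon (⌊t⌋ + 1)
  rw [key] at h1 h2
  have e1 : h * ((⌊t⌋ : ℤ) : ℝ) - c = -(h * f) := by rw [hfl, hc]; ring
  have e2 : h * ((⌊t⌋ + 1 : ℤ) : ℝ) - c = h * (1 - f) := by push_cast; rw [hfl, hc]; ring
  rw [e1] at h1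
  rw [e2] at h2
  have hcabs : |c| = h * |t| := by rw [hc, abs_mul, abs_of_pos hh]
  have hcd : |c| / h = |t| := by rw [hcabs]; field_simp
  have hu2 : ‖u‖ ^ 2 ≤ 1 := pow_le_one₀ (norm_nonneg _) hu
  have h3 : (1 - f) * (A * (‖x‖ ^ 2 + 2 * -(h * f) * inner ℝ x u + (-(h * f)) ^ 2 * ‖u‖ ^ 2) +
      w * |((⌊t⌋ : ℤ) : ℝ)|) + f * (A * (‖x‖ ^ 2 + 2 * (h * (1 - f)) * inner ℝ x u +
      (h * (1 - f)) ^ 2 * ‖u‖ ^ 2) + w * |((⌊t⌋ + 1 : ℤ) : ℝ)|) =
      A * ‖x‖ ^ 2 + A * (h ^ 2 * (f * (1 - f)) * ‖u‖ ^ 2) + w * |t| := by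
    rw [← hab]; ring
  have h4 : A * (h ^ 2 * (f * (1 - f)) * ‖u‖ ^ 2) ≤ A * h * |c| := by
    rw [hcabs]
    have e3 : h ^ 2 * (f * (1 - f)) * ‖u‖ ^ 2 ≤ h ^ 2 * |t| * 1 := by
      apply mul_le_mul _ hu2 (by positivity) (by positivity)
      exact mul_le_mul_of_nonneg_left hff (by positivity)
    calc A * (h ^ 2 * (f * (1 - f)) * ‖u‖ ^ 2) ≤ A * (h ^ 2 * |t| * 1) :=
          mul_le_mul_of_nonneg_left e3 hA
      _ = A * h * (h * |t|) := by ring
  rw [hcd] at h1 h2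
  have h5 : (1 - f) * (A * ‖x‖ ^ 2 + (A * h * |c| + w * |t|)) + f * (A * ‖x‖ ^ 2 +
      (A * h * |c| + w * |t|)) < (1 - f) * (A * (‖x‖ ^ 2 + 2 * -(h * f) * inner ℝ x u +
      (-(h * f)) ^ 2 * ‖u‖ ^ 2) + w * |((⌊t⌋ : ℤ) : ℝ)|) + f * (A * (‖x‖ ^ 2 +
      2 * (h * (1 - f)) * inner ℝ x u + (h * (1 - f)) ^ 2 * ‖u‖ ^ 2) +
      w * |((⌊t⌋ + 1 : ℤ) : ℝ)|) :=
    add_lt_add_of_lt_of_le (mul_lt_mul_of_pos_left h1 (by linarith))
      (mul_le_mul_of_nonneg_left h2.le hf0)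
  rw [h3] at h5
  linarith

/-- rounding all coefficients -/
theorem round_all {κ : Type*} [DecidableEq κ] (u : κ → E) (hu : ∀ l, ‖u l‖ ≤ 1) (c h w : κ → ℝ)
    (hh : ∀ l, 0 < h l) (A : ℝ) (hA : 0 ≤ A) (T : Finset κ) :
    ∃ z : κ → ℤ, (∀ l, l ∉ T → z l = 0) ∧
      A * ‖∑ l ∈ T, (h l * z l - c l) • u l‖ ^ 2 + ∑ l ∈ T, w l * |(z l : ℝ)| ≤
      ∑ l ∈ T, (A * h l * |c l| + w l * (|c l| / h l)) := by
  induction T using Finset.induction_on with
  | empty => exact ⟨fun _ => 0, fun _ _ => rfl, by simp⟩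
  | insert a T ha ih =>
    obtain ⟨z, hz0, hz⟩ := ih
    obtain ⟨y, hy⟩ := round_one (∑ l ∈ T, (h l * z l - c l) • u l) (u a) (hu a) (c a) (h a) (w a) A
      (hh a) hA
    refine ⟨Function.update z a y, ?_, ?_⟩
    · intro l hl
      rw [Finset.mem_insert, not_or] at hl
      rw [Function.update_of_ne hl.1]
      exact hz0 l hl.2
    · rw [Finset.sum_insert ha, Finset.sum_insert ha, Finset.sum_insert ha]
      simp only [Function.update_self]
      have e1 : ∑ l ∈ T, (h l * (Function.update z a y l : ℤ) - c l) • u l =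
          ∑ l ∈ T, (h l * z l - c l) • u l := by
        apply Finset.sum_congr rfl
        intro l hl
        rw [Function.update_of_ne (ne_of_mem_of_not_mem hl ha)]
      have e2 : ∑ l ∈ T, w l * |((Function.update z a y l : ℤ) : ℝ)| =
          ∑ l ∈ T, w l * |(z l : ℝ)| := by
        apply Finset.sum_congr rfl
        intro l hl
        rw [Function.update_of_ne (ne_of_mem_of_not_mem hl ha)]
      rw [e1, e2, add_comm ((h a * (y:ℝ) - c a) • u a)]
      linarith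

end Round

theorem icc_sum (r : ℝ) (M : ℕ) : ∑ y ∈ Finset.Icc (-(M:ℤ)) M, r ^ y.natAbs =
    1 + 2 * ∑ k ∈ range M, r ^ (k + 1) := by
  induction M with
  | zero => simp
  | succ M ih =>
    have h1 : Finset.Icc (-((M + 1 : ℕ) : ℤ)) ((M + 1 : ℕ) : ℤ) =
        insert ((M + 1 : ℕ) : ℤ) (insert (-((M + 1 : ℕ) : ℤ)) (Finset.Icc (-(M:ℤ)) M)) := by
      ext y
      simp only [Finset.mem_insert, Finset.mem_Icc]
      push_cast
      omega
    rw [h1, Finset.sum_insert, Finset.sum_insert, ih, Finset.sum_range_succ]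
    · have e1 : (((M + 1 : ℕ) : ℤ)).natAbs = M + 1 := Int.natAbs_natCast _
      have e2 : (-((M + 1 : ℕ) : ℤ)).natAbs = M + 1 := by rw [Int.natAbs_neg, e1]
      rw [e1, e2]
      ring
    · simp only [Finset.mem_Icc]; push_cast; omega
    · simp only [Finset.mem_insert, Finset.mem_Icc]; push_cast; omega

theorem one_dim (w : ℝ) (hw : 1 ≤ w) (M : ℕ) :
    ∑ y ∈ Finset.Icc (-(M:ℤ)) M, Real.exp (-(2 * (w * |(y:ℝ)|))) ≤
      Real.exp (3 * Real.exp (-(2 * w))) := by
  set r : ℝ := Real.exp (-(2 * w)) with hr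
  have hr0 : 0 < r := Real.exp_pos _
  have hr1 : r ≤ 1 / 4 := by
    have h1 : r ≤ Real.exp (-2) := Real.exp_le_exp.2 (by linarith)
    have h2 : Real.exp (-2) ≤ 1 / 4 := by
      rw [Real.exp_neg]
      have h3 : (4:ℝ) ≤ Real.exp 2 := by
        have h4 : Real.exp 2 = Real.exp 1 * Real.exp 1 := by rw [← Real.exp_add]; norm_num
        have h5 := Real.exp_one_gt_d9
        rw [h4]
        nlinarith
      rw [one_div]
      exact inv_anti₀ (by norm_num) h3
    linarith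
  have h1 : ∀ y : ℤ, Real.exp (-(2 * (w * |(y:ℝ)|))) = r ^ y.natAbs := by
    intro y
    rw [hr, ← Real.exp_nat_mul]
    congr 1
    have : ((y.natAbs : ℕ) : ℝ) = |(y:ℝ)| := by
      rw [Nat.cast_natAbs]; push_cast; rfl
    rw [this]; ring
  simp only [h1]
  rw [icc_sum]
  have h2 : ∑ k ∈ range M, r ^ (k + 1) ≤ r * (4 / 3) := by
    have h3 : ∑ k ∈ range M, r ^ (k + 1) = r * ∑ k ∈ range M, r ^ k := by
      rw [Finset.mul_sum]
      apply Finset.sum_congr rfl
      intro k _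
      rw [pow_succ]; ring
    rw [h3]
    apply mul_le_mul_of_nonneg_left _ hr0.le
    refine (geo_le hr0.le (by linarith) M).trans ?_
    rw [div_le_iff₀ (by linarith)]
    linarith
  have h4 := Real.add_one_le_exp (3 * r)
  linarith

/-- counting integer points -/
theorem count_bound {κ : Type*} [Fintype κ] [DecidableEq κ] (w : κ → ℝ) (hw : ∀ l, 1 ≤ w l)
    (W : ℝ) (Z : Finset (κ → ℤ)) (hZ : ∀ z ∈ Z, ∑ l, w l * |(z l : ℝ)| ≤ W) :
    (Z.card : ℝ) ≤ Real.exp (2 * W + 3 * ∑ l, Real.exp (-(2 * w l))) := by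
  set M : ℕ := ⌈W⌉₊ with hM
  have hsub : Z ⊆ Fintype.piFinset (fun _ : κ => Finset.Icc (-(M:ℤ)) M) := by
    intro z hz
    rw [Fintype.mem_piFinset]
    intro l
    have h1 := hZ z hz
    have h2 : w l * |(z l : ℝ)| ≤ ∑ l, w l * |(z l : ℝ)| :=
      Finset.single_le_sum (f := fun l => w l * |(z l : ℝ)|)
        (fun i _ => by have := hw i; positivity) (Finset.mem_univ l)
    have h3 : |(z l : ℝ)| ≤ W := by
      have := hw l
      have := abs_nonneg (z l : ℝ)
      nlinarith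
    have h4 : |(z l : ℝ)| ≤ M := h3.trans (Nat.le_ceil W)
    have h5 : |z l| ≤ (M : ℤ) := by exact_mod_cast h4
    rw [Finset.mem_Icc]
    exact abs_le.1 h5
  have h1 : (Z.card : ℝ) ≤ ∑ z ∈ Z, Real.exp (2 * W) *
      ∏ l, Real.exp (-(2 * (w l * |(z l : ℝ)|))) := by
    rw [← nsmul_one, ← Finset.sum_const]
    apply Finset.sum_le_sum
    intro z hz
    rw [← Real.exp_sum, ← Real.exp_add]
    apply Real.one_le_exp
    have h2 := hZ z hz
    rw [Finset.sum_neg_distrib, ← Finset.mul_sum]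
    linarith
  refine h1.trans ?_
  have h2 : ∑ z ∈ Z, Real.exp (2 * W) * ∏ l, Real.exp (-(2 * (w l * |(z l : ℝ)|))) ≤
      ∑ z ∈ Fintype.piFinset (fun _ : κ => Finset.Icc (-(M:ℤ)) M), Real.exp (2 * W) *
        ∏ l, Real.exp (-(2 * (w l * |(z l : ℝ)|))) :=
    Finset.sum_le_sum_of_subset_of_nonneg hsub (fun z _ _ => by positivity)
  refine h2.trans ?_
  rw [← Finset.mul_sum]
  have h3 := Finset.prod_univ_sum (fun _ : κ => Finset.Icc (-(M:ℤ)) M)
    (fun l y => Real.exp (-(2 * (w l * |(y : ℝ)|))))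
  rw [← h3, Real.exp_add]
  apply mul_le_mul_of_nonneg_left _ (Real.exp_pos _).le
  rw [Finset.mul_sum, Real.exp_sum]
  apply Finset.prod_le_prod
  · intro l _
    exact Finset.sum_nonneg fun y _ => (Real.exp_pos _).le
  · intro l _
    exact one_dim (w l) (hw l) M

/-- the weights `1 + log (1 + l)` -/
noncomputable def wt (l : ℕ) : ℝ := 1 + Real.log (1 + (l : ℝ))

theorem one_le_wt (l : ℕ) : 1 ≤ wt l := ell_arg l

theorem wt_sum (K : ℕ) : 3 * ∑ l : Fin K, Real.exp (-(2 * wt l)) ≤ 1 := by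
  have h1 : ∀ l : ℕ, Real.exp (-(2 * wt l)) ≤ Real.exp (-2) * (2 * (1 / (l + 1 : ℝ) - 1 / (l + 2))) := by
    intro l
    have h2 : Real.exp (-(2 * wt l)) = Real.exp (-2) * ((1 + (l:ℝ))⁻¹) ^ 2 := by
      unfold wt
      have hl : (0:ℝ) < 1 + (l:ℝ) := by positivity
      rw [show -(2 * (1 + Real.log (1 + (l:ℝ)))) = -2 + (-(Real.log (1 + (l:ℝ))) +
        -(Real.log (1 + (l:ℝ)))) by ring, Real.exp_add, Real.exp_add, Real.exp_neg (Real.log _),
        Real.exp_log hl]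
      ring
    rw [h2]
    apply mul_le_mul_of_nonneg_left _ (Real.exp_pos _).le
    have hl : (0:ℝ) ≤ (l:ℝ) := Nat.cast_nonneg l
    rw [div_sub_div _ _ (by positivity) (by positivity), inv_pow, inv_eq_one_div,
      mul_div_assoc', div_le_div_iff₀ (by positivity) (by positivity)]
    nlinarith
  have h2 : ∑ l : Fin K, Real.exp (-(2 * wt l)) ≤
      ∑ l ∈ range K, Real.exp (-2) * (2 * (1 / (l + 1 : ℝ) - 1 / (l + 2))) := by
    rw [Fin.sum_univ_eq_sum_range (fun l => Real.exp (-(2 * wt l))) K]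
    exact Finset.sum_le_sum fun l _ => h1 l
  have h3 : ∀ K : ℕ, ∑ l ∈ range K, Real.exp (-2) * (2 * (1 / (l + 1 : ℝ) - 1 / (l + 2))) =
      Real.exp (-2) * (2 * (1 - 1 / ((K:ℝ) + 1))) := by
    intro K
    induction K with
    | zero => simp
    | succ K ih =>
      rw [Finset.sum_range_succ, ih]
      push_cast
      ring
  rw [h3] at h2
  have h4 : Real.exp (-2) ≤ 1 / 6 := by
    rw [Real.exp_neg]
    have h3 : (6:ℝ) ≤ Real.exp 2 := by
      have h4 : Real.exp 2 = Real.exp 1 * Real.exp 1 := by rw [← Real.exp_add]; norm_num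
      have h5 := Real.exp_one_gt_d9
      rw [h4]
      nlinarith
    rw [one_div]
    exact inv_anti₀ (by norm_num) h3
  have h5 : 0 < Real.exp (-2) := Real.exp_pos _
  have h6 : 0 ≤ 1 / ((K:ℝ) + 1) := by positivity
  nlinarith

/-- **Entropy numbers** of the absolutely convex hull of the vectors `u_l / (1 + log (1 + l))^β`. -/
theorem hull_pack {n d K : ℕ} (β : ℝ) (hβ : 0 < β) (hβ2 : β < 1 / 2)
    (u : Fin K → EuclideanSpace ℝ (Fin d)) (hu : ∀ l, ‖u l‖ ≤ 1) (c : Fin n → Fin K → ℝ)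
    (hc : ∀ i, ∑ l, |c i l| * wt l ^ β ≤ 1) (ρ : ℝ) (hρ : 0 < ρ) (hρ1 : ρ ≤ 1) :
    ∃ N : ℕ, PackLE (fun i => ∑ l, c i l • u l) ρ N ∧
      1 + Real.log (1 + (N : ℝ)) ≤ (3 + 16 * 4 ^ (1 / β)) * ρ ^ (-(1 / β)) := by
  classical
  set b : Fin K → ℝ := fun l => (wt l ^ β)⁻¹ with hb
  have hwt : ∀ l : Fin K, 1 ≤ wt l := fun l => one_le_wt l
  have hwb : ∀ l : Fin K, 0 < wt l ^ β := fun l => by have := hwt l; positivity
  have hb0 : ∀ l, 0 < b l := fun l => inv_pos.2 (hwb l)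
  have hbw : ∀ l : Fin K, wt l = b l ^ (-(1 / β)) := by
    intro l
    have h0 : 0 ≤ wt l := by have := hwt l; linarith
    simp only [hb]
    rw [Real.inv_rpow (hwb l).le, Real.rpow_neg (hwb l).le, inv_inv, ← Real.rpow_mul h0,
      mul_one_div_cancel hβ.ne', Real.rpow_one]
  set p : Fin n → Fin K → ℝ := fun i l => |c i l| * wt l ^ β with hp
  have hp0 : ∀ i l, 0 ≤ p i l := fun i l => mul_nonneg (abs_nonneg _) (hwb l).le
  have hpc : ∀ i l, |c i l| = p i l * b l := by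
    intro i l
    simp only [hp, hb]
    rw [mul_assoc, mul_inv_cancel₀ (hwb l).ne', mul_one]
  set A : ℝ := 64 / ρ ^ 2 with hA
  have hA0 : 0 < A := by positivity
  set W0 : ℝ := (ρ / 4) ^ (2 - 1 / β) * A with hW0
  have hW00 : 0 < W0 := by positivity
  set T : Finset (Fin K) := univ.filter (fun l => ρ / 4 ≤ b l) with hT
  -- the roundings
  have hround : ∀ i : Fin n, ∃ z : Fin K → ℤ,
      ‖∑ l ∈ T, (1 / (A * b l) * z l - c i l) • u l‖ ≤ ρ / 4 ∧
      ∑ l : Fin K, wt l * |(z l : ℝ)| ≤ 2 * W0 := by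
    intro i
    obtain ⟨z, hz0, hz⟩ := round_all u hu (c i) (fun l => 1 / (A * b l)) (fun l => wt l / W0)
      (fun l => by have := hb0 l; positivity) A hA0.le T
    have h1 : ∑ l ∈ T, (A * (1 / (A * b l)) * |c i l| + wt l / W0 * (|c i l| / (1 / (A * b l)))) ≤
        ∑ l ∈ T, 2 * p i l := by
      apply Finset.sum_le_sum
      intro l hl
      have hbl := hb0 l
      have hlT : ρ / 4 ≤ b l := (Finset.mem_filter.1 hl).2
      have e1 : A * (1 / (A * b l)) * |c i l| = p i l := by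
        rw [hpc]; field_simp
      have e2 : wt l / W0 * (|c i l| / (1 / (A * b l))) = p i l * (b l ^ (2 - 1 / β) * A / W0) := by
        rw [hpc, hbw l, Real.rpow_sub hbl, Real.rpow_neg hbl.le, Real.rpow_two]
        field_simp
      have e3 : b l ^ (2 - 1 / β) * A / W0 ≤ 1 := by
        rw [div_le_one hW00, hW0]
        apply mul_le_mul_of_nonneg_right _ hA0.le
        apply Real.rpow_le_rpow_of_nonpos (by positivity) hlT
        rw [sub_nonpos, le_div_iff₀ hβ]
        linarith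
      rw [e1, e2]
      have := mul_le_mul_of_nonneg_left e3 (hp0 i l)
      linarith
    have h2 : ∑ l ∈ T, 2 * p i l ≤ 2 := by
      rw [← Finset.mul_sum]
      have : ∑ l ∈ T, p i l ≤ ∑ l, p i l :=
        Finset.sum_le_sum_of_subset_of_nonneg (Finset.subset_univ _) (fun l _ _ => hp0 i l)
      have := hc i
      linarith
    have h3 := hz.trans (h1.trans h2)
    have h4 : 0 ≤ ∑ l ∈ T, wt l / W0 * |(z l : ℝ)| := Finset.sum_nonneg fun l _ => by
      have := hwt l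
      positivity
    have h5 : 0 ≤ A * ‖∑ l ∈ T, (1 / (A * b l) * z l - c i l) • u l‖ ^ 2 := by positivity
    refine ⟨z, ?_, ?_⟩
    · apply le_of_sq_le_sq _ (by positivity)
      have h6 : A * ‖∑ l ∈ T, (1 / (A * b l) * z l - c i l) • u l‖ ^ 2 ≤ 2 := by linarith
      have h7 : ‖∑ l ∈ T, (1 / (A * b l) * z l - c i l) • u l‖ ^ 2 ≤ 2 / A := by
        rw [le_div_iff₀ hA0]; linarith
      refine h7.trans ?_
      rw [hA]
      have : 0 < ρ ^ 2 := by positivity
      rw [div_div_eq_mul_div, div_le_iff₀ (by norm_num)]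
      nlinarith
    · have h6 : ∑ l ∈ T, wt l / W0 * |(z l : ℝ)| ≤ 2 := by linarith
      have h7 : ∑ l : Fin K, wt l * |(z l : ℝ)| = W0 * ∑ l ∈ T, wt l / W0 * |(z l : ℝ)| := by
        rw [Finset.mul_sum, ← Finset.sum_subset (Finset.subset_univ T)]
        · apply Finset.sum_congr rfl
          intro l _
          field_simp
        · intro l _ hl
          rw [hz0 l hl]
          simp
      rw [h7, mul_comm 2 W0]
      exact mul_le_mul_of_nonneg_left h6 hW00.le
  choose z hz1 hz2 using hround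
  -- close vectors
  have hclose : ∀ i i' : Fin n, z i = z i' →
      ‖(∑ l, c i l • u l) - ∑ l, c i' l • u l‖ ≤ ρ := by
    intro i i' hii
    have htail : ∀ i, ‖∑ l ∈ univ.filter (fun l => ¬ (ρ / 4 ≤ b l)), c i l • u l‖ ≤ ρ / 4 := by
      intro i
      calc ‖∑ l ∈ univ.filter (fun l => ¬ (ρ / 4 ≤ b l)), c i l • u l‖ ≤
          ∑ l ∈ univ.filter (fun l => ¬ (ρ / 4 ≤ b l)), ‖c i l • u l‖ := norm_sum_le _ _
        _ ≤ ∑ l ∈ univ.filter (fun l => ¬ (ρ / 4 ≤ b l)), ρ / 4 * p i l := by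
            apply Finset.sum_le_sum
            intro l hl
            have h1 := (Finset.mem_filter.1 hl).2
            push Not at h1
            rw [norm_smul, Real.norm_eq_abs, hpc]
            have h2 := hu l
            have h3 := hp0 i l
            have h4 := hb0 l
            calc p i l * b l * ‖u l‖ ≤ p i l * b l * 1 :=
                  mul_le_mul_of_nonneg_left h2 (by positivity)
              _ ≤ ρ / 4 * p i l := by nlinarith
        _ = ρ / 4 * ∑ l ∈ univ.filter (fun l => ¬ (ρ / 4 ≤ b l)), p i l := by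
            rw [Finset.mul_sum]
        _ ≤ ρ / 4 * 1 := by
            apply mul_le_mul_of_nonneg_left _ (by positivity)
            refine le_trans ?_ (hc i)
            exact Finset.sum_le_sum_of_subset_of_nonneg (Finset.subset_univ _)
              (fun l _ _ => hp0 i l)
        _ = ρ / 4 := mul_one _
    have hsplit : ∀ i, ∑ l, c i l • u l = (∑ l ∈ T, (1 / (A * b l) * (z i l : ℝ)) • u l -
        ∑ l ∈ T, (1 / (A * b l) * z i l - c i l) • u l) +
        ∑ l ∈ univ.filter (fun l => ¬ (ρ / 4 ≤ b l)), c i l • u l := by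
      intro i
      rw [← Finset.sum_sub_distrib, ← Finset.sum_filter_add_sum_filter_not univ
        (fun l => ρ / 4 ≤ b l)]
      congr 1
      apply Finset.sum_congr rfl
      intro l _
      rw [← sub_smul]
      congr 1
      ring
    rw [hsplit i, hsplit i', hii]
    have e1 := htail i
    have e2 := htail i'
    have e3 := hz1 i
    have e4 := hz1 i'
    rw [hii] at e3
    set X := ∑ l ∈ T, (1 / (A * b l) * (z i' l : ℝ)) • u l
    set Y := ∑ l ∈ T, (1 / (A * b l) * z i' l - c i l) • u l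
    set Y' := ∑ l ∈ T, (1 / (A * b l) * z i' l - c i' l) • u l
    set V := ∑ l ∈ univ.filter (fun l => ¬ (ρ / 4 ≤ b l)), c i l • u l
    set V' := ∑ l ∈ univ.filter (fun l => ¬ (ρ / 4 ≤ b l)), c i' l • u l
    have e5 : X - Y + V - (X - Y' + V') = (Y' - Y) + (V - V') := by abel
    rw [e5]
    have e6 := norm_add_le (Y' - Y) (V - V')
    have e7 := norm_sub_le Y' Y
    have e8 := norm_sub_le V V'
    linarith
  refine ⟨⌊Real.exp (4 * W0 + 1)⌋₊, ?_, ?_⟩
  · intro X hX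
    have hinj : Set.InjOn z X := by
      intro i hi i' hi' hii
      by_contra hne
      have h1 := (hX i hi i' hi' hne).1
      have h2 := hclose i i' hii
      linarith
    rw [← Finset.card_image_of_injOn hinj]
    apply Nat.le_floor
    have h1 := count_bound (fun l : Fin K => wt l) (fun l => hwt l) (2 * W0) (X.image z) (by
      intro y hy
      obtain ⟨i, _, hi⟩ := Finset.mem_image.1 hy
      rw [← hi]
      exact hz2 i)
    refine h1.trans (Real.exp_le_exp.2 ?_)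
    have := wt_sum K
    linarith
  · have h1 : (⌊Real.exp (4 * W0 + 1)⌋₊ : ℝ) ≤ Real.exp (4 * W0 + 1) :=
      Nat.floor_le (Real.exp_pos _).le
    have h2 : 1 + (⌊Real.exp (4 * W0 + 1)⌋₊ : ℝ) ≤ Real.exp (4 * W0 + 2) := by
      have e1 : Real.exp (4 * W0 + 2) = Real.exp (4 * W0 + 1) * Real.exp 1 := by
        rw [← Real.exp_add]; congr 1; ring
      have e2 : (1:ℝ) ≤ Real.exp (4 * W0 + 1) := Real.one_le_exp (by positivity)
      have e3 := Real.exp_one_gt_d9
      rw [e1]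
      nlinarith
    have h3 : Real.log (1 + (⌊Real.exp (4 * W0 + 1)⌋₊ : ℝ)) ≤ 4 * W0 + 2 := by
      rw [← Real.log_exp (4 * W0 + 2)]
      exact Real.log_le_log (by positivity) h2
    have h4 : W0 = 4 * 4 ^ (1 / β) * ρ ^ (-(1 / β)) := by
      rw [hW0, hA, Real.div_rpow hρ.le (by norm_num), Real.rpow_sub hρ, Real.rpow_sub (by norm_num),
        Real.rpow_neg hρ.le, Real.rpow_two, Real.rpow_two]
      field_simp
      norm_num
    have h5 : 1 ≤ ρ ^ (-(1 / β)) := by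
      apply Real.one_le_rpow_of_pos_of_le_one_of_nonpos hρ hρ1
      have : 0 < 1 / β := by positivity
      linarith
    rw [add_mul]
    have h6 : 16 * 4 ^ (1 / β) * ρ ^ (-(1 / β)) = 4 * W0 := by rw [h4]; ring
    rw [h6]
    linarith

/-- vectors of an absolutely convex hull have norm at most one -/
theorem hull_norm {n d K : ℕ} (β : ℝ) (hβ : 0 ≤ β)
    (u : Fin K → EuclideanSpace ℝ (Fin d)) (hu : ∀ l, ‖u l‖ ≤ 1) (c : Fin n → Fin K → ℝ)
    (hc : ∀ i, ∑ l, |c i l| * wt l ^ β ≤ 1) (i : Fin n) : ‖∑ l, c i l • u l‖ ≤ 1 := by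
  refine (norm_sum_le _ _).trans (le_trans (Finset.sum_le_sum fun l _ => ?_) (hc i))
  rw [norm_smul, Real.norm_eq_abs]
  apply mul_le_mul_of_nonneg_left _ (abs_nonneg _)
  exact (hu l).trans (Real.one_le_rpow (one_le_wt l) hβ)

end Pool.Agent.U515.KE
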