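import Pool.Agent.U515.KE.Pair
import Pool.Agent.H167R2.KNLin

/-!
# Rounding of arbitrary points
-/

namespace Pool.Agent.U515.KE

open Finset

/-- Every point of the cube can be rounded to a vertex such that all coordinates of the sum of the
`v i` change by at most `R`; coordinates which are signs do not move. -/
def RoundsWithin {n d : ℕ} (v : Fin n → EuclideanSpace ℝ (Fin d)) (R : ℝ) : Prop :=
  ∀ x₀ : Fin n → ℝ, (∀ i, |x₀ i| ≤ 1) → ∃ x : Fin n → ℝ, (∀ i, x i = 1 ∨ x i = -1) ∧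
    (∀ i, |x₀ i| = 1 → x i = x₀ i) ∧ ∀ k, |∑ i, (x i - x₀ i) * v i k| ≤ R

variable {ι : Type} [Fintype ι] [DecidableEq ι] {d : ℕ}

/-- binary digits -/
theorem digits (v : ι → EuclideanSpace ℝ (Fin d)) (F : Finset ι) (B : ℝ)
    (h : ∀ I ⊆ F, ∃ ε : ι → ℝ, (∀ i, ε i = 1 ∨ ε i = -1) ∧ ∀ k, |∑ i ∈ I, ε i * v i k| ≤ B) :
    ∀ (m : ℕ) (z : ι → ℤ), (∀ i, |z i| ≤ 2 ^ m) → (∀ i, i ∉ F → |z i| = 2 ^ m) →
      ∃ x : ι → ℝ, (∀ i, x i = 1 ∨ x i = -1) ∧
        (∀ i, |z i| = 2 ^ m → x i = (z i : ℝ) / 2 ^ m) ∧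
        ∀ k, |∑ i, (x i - (z i : ℝ) / 2 ^ m) * v i k| ≤ (2 - (1 / 2) ^ m) * B := by
  intro m
  induction m with
  | zero =>
    intro z hz hzF
    obtain ⟨ε, hε, hsum⟩ := h (univ.filter fun i => z i = 0) (by
      intro i hi
      by_contra hcon
      have h1 := hzF i hcon
      rw [(Finset.mem_filter.1 hi).2] at h1
      norm_num at h1)
    refine ⟨fun i => if z i = 0 then ε i else z i, ?_, ?_, ?_⟩
    · intro i
      dsimp only
      split_ifs with h0
      · exact hε i
      · have h1 := hz i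
        rw [pow_zero] at h1
        have h2 : z i = 1 ∨ z i = -1 := by
          have := abs_le.1 h1
          omega
        rcases h2 with h2 | h2 <;> rw [h2]
        · left; norm_num
        · right; norm_num
    · intro i hi
      have h0 : z i ≠ 0 := by
        intro h0
        rw [h0] at hi
        norm_num at hi
      simp [h0]
    · intro k
      have h1 : ∑ i, ((if z i = 0 then ε i else (z i : ℝ)) - (z i : ℝ) / 2 ^ 0) * v i k =
          ∑ i ∈ univ.filter (fun i => z i = 0), ε i * v i k := by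
        rw [Finset.sum_filter]
        apply Finset.sum_congr rfl
        intro i _
        by_cases h0 : z i = 0
        · simp [h0]
        · simp [h0]
      rw [h1]
      have := hsum k
      simpa using (by linarith : |∑ i ∈ univ.filter (fun i => z i = 0), ε i * v i k| ≤ (2 - 1) * B)
  | succ m ih =>
    intro z hz hzF
    have heven : ∀ i, |z i| = 2 ^ (m + 1) → Even (z i) := by
      intro i hi
      have : Even |z i| := by
        rw [hi, pow_succ]
        exact even_two.mul_left _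
      rwa [even_abs] at this
    obtain ⟨ε, hε, hsum⟩ := h (univ.filter fun i => Odd (z i)) (by
      intro i hi
      by_contra hcon
      have h1 := heven i (hzF i hcon)
      have h2 := (Finset.mem_filter.1 hi).2
      exact (Int.not_odd_iff_even.2 h1) h2)
    have hint : ∀ i, ∃ e : ℤ, (e = 1 ∨ e = -1) ∧ (e : ℝ) = ε i := by
      intro i
      rcases hε i with h | h
      · exact ⟨1, Or.inl rfl, by rw [h]; norm_num⟩
      · exact ⟨-1, Or.inr rfl, by rw [h]; norm_num⟩
    choose e he1 he2 using hint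
    have hz' : ∀ i, ∃ y : ℤ, 2 * y = z i + (if Odd (z i) then e i else 0) := by
      intro i
      split_ifs with ho
      · have : Even (z i + e i) := by
          rcases he1 i with h | h <;> rw [h]
          · exact ho.add_one
          · exact ho.add_odd (by decide)
        obtain ⟨y, hy⟩ := this
        exact ⟨y, by omega⟩
      · obtain ⟨y, hy⟩ := Int.not_odd_iff_even.1 ho
        exact ⟨y, by omega⟩
    choose z' hz'e using hz'
    have hpow : (2:ℤ) ^ (m + 1) = 2 * 2 ^ m := by rw [pow_succ]; ring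
    have hb : ∀ i, |z' i| ≤ 2 ^ m := by
      intro i
      have h1 := hz i
      have h2 := hz'e i
      rw [abs_le, hpow] at h1
      rw [abs_le]
      by_cases ho : Odd (z i)
      · rw [if_pos ho] at h2
        obtain ⟨q, hq⟩ := ho
        rcases he1 i with h | h <;> rw [h] at h2 <;> constructor <;> omega
      · rw [if_neg ho] at h2
        constructor <;> omega
    have hfull : ∀ i, |z i| = 2 ^ (m + 1) → |z' i| = 2 ^ m ∧ 2 * z' i = z i := by
      intro i hi
      have h1 := heven i hi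
      have h2 := hz'e i
      rw [if_neg (Int.not_odd_iff_even.2 h1), add_zero] at h2
      refine ⟨?_, h2⟩
      rw [← h2, abs_mul, hpow] at hi
      have h3 : |(2:ℤ)| = 2 := by norm_num
      rw [h3] at hi
      linarith
    obtain ⟨x, hx1, hx2, hx3⟩ := ih z' hb (fun i hi => (hfull i (hzF i hi)).1)
    refine ⟨x, hx1, ?_, ?_⟩
    · intro i hi
      obtain ⟨h1, h2⟩ := hfull i hi
      rw [hx2 i h1, ← h2, pow_succ]
      push_cast
      field_simp
    · intro k
      have h1 : ∑ i, (x i - (z i : ℝ) / 2 ^ (m + 1)) * v i k =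
          ∑ i, (x i - (z' i : ℝ) / 2 ^ m) * v i k +
          (1 / 2) ^ (m + 1) * ∑ i ∈ univ.filter (fun i => Odd (z i)), ε i * v i k := by
        rw [Finset.sum_filter, Finset.mul_sum, ← Finset.sum_add_distrib]
        apply Finset.sum_congr rfl
        intro i _
        have h2 : (2:ℝ) * (z' i : ℝ) = (z i : ℝ) + (if Odd (z i) then (e i : ℝ) else 0) := by
          have := hz'e i
          exact_mod_cast congrArg (Int.cast : ℤ → ℝ) this
        have h3 : (z' i : ℝ) / 2 ^ m = (1 / 2) ^ (m + 1) * (2 * (z' i : ℝ)) := by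
          rw [one_div, inv_pow, pow_succ]
          field_simp
        have h4 : (z i : ℝ) / 2 ^ (m + 1) = (1 / 2) ^ (m + 1) * (z i : ℝ) := by
          rw [one_div, inv_pow]
          field_simp
        rw [h3, h4, h2]
        by_cases ho : Odd (z i)
        · rw [if_pos ho, if_pos ho, he2 i]; ring
        · rw [if_neg ho, if_neg ho]; ring
      rw [h1]
      refine (abs_add_le _ _).trans ?_
      have h2 := hx3 k
      rw [abs_mul, abs_of_pos (show (0:ℝ) < (1 / 2) ^ (m + 1) by positivity)]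
      have h3 : (1 / 2 : ℝ) ^ (m + 1) * |∑ i ∈ univ.filter (fun i => Odd (z i)), ε i * v i k| ≤
          (1 / 2 : ℝ) ^ (m + 1) * B := mul_le_mul_of_nonneg_left (hsum k) (by positivity)
      have h4 : (2 - (1 / 2 : ℝ) ^ (m + 1)) * B =
          (2 - (1 / 2 : ℝ) ^ m) * B + (1 / 2 : ℝ) ^ (m + 1) * B := by
        rw [pow_succ]; ring
      rw [h4]
      exact add_le_add h2 h3

/-- rounding of arbitrary points (Lovász–Spencer–Vesztergombi) -/
theorem lsv (v : ι → EuclideanSpace ℝ (Fin d)) (F : Finset ι) (B : ℝ) (hB : 0 ≤ B)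
    (h : ∀ I ⊆ F, ∃ ε : ι → ℝ, (∀ i, ε i = 1 ∨ ε i = -1) ∧ ∀ k, |∑ i ∈ I, ε i * v i k| ≤ B)
    (x₀ : ι → ℝ) (hx : ∀ i, |x₀ i| ≤ 1) (hxF : ∀ i, i ∉ F → |x₀ i| = 1) :
    ∃ x : ι → ℝ, (∀ i, x i = 1 ∨ x i = -1) ∧ (∀ i, |x₀ i| = 1 → x i = x₀ i) ∧
      ∀ k, |∑ i, (x i - x₀ i) * v i k| ≤ 2 * B := by
  have hex : ∀ m : ℕ, ∃ b : ι → Bool, (∀ i, |x₀ i| = 1 → (if b i then (1:ℝ) else -1) = x₀ i) ∧
      ∀ k, |∑ i, ((if b i then (1:ℝ) else -1) - x₀ i) * v i k| ≤
        2 * B + (1 / 2) ^ m * ∑ i, |v i k| := by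
    intro m
    have hp : (0:ℝ) < 2 ^ m := by positivity
    have hone : ∀ i, |x₀ i| = 1 → ((⌊2 ^ m * x₀ i⌋ : ℤ) : ℝ) = 2 ^ m * x₀ i := by
      intro i hi
      rcases eq_or_eq_neg_of_abs_eq hi with h1 | h1
      · rw [h1, mul_one]
        have : ((2:ℝ) ^ m) = (((2:ℤ) ^ m : ℤ) : ℝ) := by push_cast; rfl
        rw [this, Int.floor_intCast]
      · rw [h1]
        have : ((2:ℝ) ^ m * -1) = (((-(2:ℤ) ^ m) : ℤ) : ℝ) := by push_cast; ring
        rw [this, Int.floor_intCast]
    obtain ⟨x, hx1, hx2, hx3⟩ := digits v F B h m (fun i => ⌊2 ^ m * x₀ i⌋) (by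
      intro i
      have h1 := abs_le.1 (hx i)
      rw [abs_le]
      constructor
      · rw [Int.le_floor]
        push_cast
        nlinarith
      · have h2 : ((⌊2 ^ m * x₀ i⌋ : ℤ) : ℝ) ≤ (((2:ℤ) ^ m : ℤ) : ℝ) := by
          refine (Int.floor_le _).trans ?_
          push_cast
          nlinarith
        exact_mod_cast h2) (by
      intro i hi
      have h1 := hone i (hxF i hi)
      have h2 : ((|⌊2 ^ m * x₀ i⌋| : ℤ) : ℝ) = ((2 ^ m : ℤ) : ℝ) := by
        push_cast
        rw [h1, abs_mul, hxF i hi, abs_of_pos hp, mul_one]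
      exact_mod_cast h2)
    refine ⟨fun i => decide (x i = 1), ?_, ?_⟩
    · intro i hi
      have h1 := hone i hi
      have h2 : ((|⌊2 ^ m * x₀ i⌋| : ℤ) : ℝ) = ((2 ^ m : ℤ) : ℝ) := by
        push_cast
        rw [h1, abs_mul, hi, abs_of_pos hp, mul_one]
      have h3 := hx2 i (by exact_mod_cast h2)
      rw [h1, mul_div_assoc, mul_comm, div_mul_cancel₀ _ hp.ne'] at h3
      rcases hx1 i with h4 | h4
      · simp [h4, ← h3]
      · rw [← h3, h4]
        simp only [h4]
        norm_num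
    · intro k
      have h1 : ∀ i, (if decide (x i = 1) = true then (1:ℝ) else -1) = x i := by
        intro i
        rcases hx1 i with h4 | h4
        · simp [h4]
        · rw [h4]; norm_num
      simp only [h1]
      have h2 : ∑ i, (x i - x₀ i) * v i k =
          ∑ i, (x i - ((⌊2 ^ m * x₀ i⌋ : ℤ) : ℝ) / 2 ^ m) * v i k +
          ∑ i, (((⌊2 ^ m * x₀ i⌋ : ℤ) : ℝ) / 2 ^ m - x₀ i) * v i k := by
        rw [← Finset.sum_add_distrib]
        apply Finset.sum_congr rfl
        intro i _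
        ring
      rw [h2]
      refine (abs_add_le _ _).trans ?_
      have h3 := hx3 k
      have h4 : |∑ i, (((⌊2 ^ m * x₀ i⌋ : ℤ) : ℝ) / 2 ^ m - x₀ i) * v i k| ≤
          (1 / 2) ^ m * ∑ i, |v i k| := by
        rw [Finset.mul_sum]
        refine (Finset.abs_sum_le_sum_abs _ _).trans (Finset.sum_le_sum fun i _ => ?_)
        rw [abs_mul]
        apply mul_le_mul_of_nonneg_right _ (abs_nonneg _)
        have e1 := Int.floor_le (2 ^ m * x₀ i)
        have e2 := Int.lt_floor_add_one (2 ^ m * x₀ i)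
        have e3 : ((⌊2 ^ m * x₀ i⌋ : ℤ) : ℝ) / 2 ^ m - x₀ i =
            (((⌊2 ^ m * x₀ i⌋ : ℤ) : ℝ) - 2 ^ m * x₀ i) / 2 ^ m := by
          field_simp
        rw [e3, abs_div, abs_of_pos hp, div_le_iff₀ hp]
        have e4 : (1 / 2 : ℝ) ^ m * 2 ^ m = 1 := by
          rw [← mul_pow]; norm_num
        rw [e4, abs_le]
        constructor <;> linarith
      have h5 : (2 - (1 / 2 : ℝ) ^ m) * B ≤ 2 * B := by
        apply mul_le_mul_of_nonneg_right _ hB
        have : (0:ℝ) < (1 / 2) ^ m := by positivity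
        linarith
      linarith
  choose b hb1 hb2 using hex
  obtain ⟨y, hy⟩ := Finite.exists_infinite_fiber b
  refine ⟨fun i => if y i then (1:ℝ) else -1, ?_, ?_, ?_⟩
  · intro i
    dsimp only
    split_ifs
    · exact Or.inl rfl
    · exact Or.inr rfl
  · obtain ⟨⟨m, hm⟩⟩ := (inferInstance : Nonempty (b ⁻¹' {y}))
    have : b m = y := hm
    rw [← this]
    exact hb1 m
  · intro k
    apply le_of_forall_pos_le_add
    intro δ hδ
    have hs : 0 ≤ ∑ i, |v i k| := Finset.sum_nonneg fun i _ => abs_nonneg _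
    obtain ⟨m0, hm0⟩ := exists_pow_lt_of_lt_one (show (0:ℝ) < δ / (1 + ∑ i, |v i k|) by positivity)
      (show (1 / 2 : ℝ) < 1 by norm_num)
    have hinf : (b ⁻¹' {y}).Infinite := Set.infinite_coe_iff.1 hy
    obtain ⟨m, hm, hmm⟩ := hinf.exists_gt m0
    have h1 : b m = y := hm
    have h2 := hb2 m k
    rw [h1] at h2
    refine h2.trans ?_
    have h3 : (1 / 2 : ℝ) ^ m ≤ (1 / 2 : ℝ) ^ m0 :=
      pow_le_pow_of_le_one (by norm_num) (by norm_num) hmm.le
    have h4 : (1 / 2 : ℝ) ^ m * (1 + ∑ i, |v i k|) ≤ δ := by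
      have := (lt_div_iff₀ (show (0:ℝ) < 1 + ∑ i, |v i k| by positivity)).1 hm0
      nlinarith
    have h5 : (0:ℝ) < (1 / 2) ^ m := by positivity
    nlinarith

/-- **The entropy bound.** -/
theorem main1 {n d : ℕ} (v : Fin n → EuclideanSpace ℝ (Fin d)) (hv : ∀ i, ‖v i‖ ≤ 1) (N : ℕ → ℕ)
    (hN : ∀ j, PackLE v ((1 / 2) ^ j) (N j)) (S : ℝ)
    (hS : ∀ J, ∑ j ∈ range J, (1 / 2 : ℝ) ^ j * ell (min (N j) (min n d)) ≤ S) :
    RoundsWithin v (6 * K0 * S) := by
  intro x₀ hx
  obtain ⟨y, hy1, hy2, hy3⟩ := H167KN.reduce (fun (k : Fin d) (i : Fin n) => v i k) n x₀ hx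
    ((Finset.card_le_univ _).trans (by simp))
  rw [Fintype.card_fin] at hy3
  have hyn : (H167FK.Sys.alive y).card ≤ n := (Finset.card_le_univ _).trans (by simp)
  have hS1 : 1 ≤ S := by
    have h1 := hS 1
    rw [Finset.sum_range_one, pow_zero, one_mul] at h1
    exact (one_le_ell _).trans h1
  have hK : (0:ℝ) < K0 := by norm_num [K0]
  obtain ⟨x, hx1, hx2, hx3⟩ := lsv v (H167FK.Sys.alive y) (K0 * (3 * S)) (by positivity)
    (fun I hI => hered v (fun j => min (N j) (min n d)) I (fun i _ => hv i)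
      (fun j A hA hsep => le_min (hN j A hsep) (le_min
        ((Finset.card_le_card (hA.trans hI)).trans hyn)
        ((Finset.card_le_card (hA.trans hI)).trans hy3))) S hS) y hy1.1
    (fun i hi => by
      rw [H167BK.mem_alive] at hi
      exact le_antisymm (hy1.1 i) (not_lt.1 hi))
  refine ⟨x, hx1, fun i hi => ?_, fun k => ?_⟩
  · have h1 : y i = x₀ i := hy1.2 i hi
    rw [← h1]
    exact hx2 i (by rw [h1]; exact hi)
  · have h1 : ∑ i, (x i - x₀ i) * v i k =
        ∑ i, (x i - y i) * v i k + ∑ i, v i k * (y i - x₀ i) := by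
      rw [← Finset.sum_add_distrib]
      apply Finset.sum_congr rfl
      intro i _
      ring
    rw [h1, hy2 k, add_zero]
    have := hx3 k
    linarith

end Pool.Agent.U515.KE
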