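import Mathlib
import Pool.Agent.H422R3.Kom.Round

/-!
# Pairing of close vectors and chaining of signings
-/

namespace Pool.Agent.U515.KE

open Finset

/-- Any set of indices for which all the distances `‖v a - v b‖` and `‖v a + v b‖` are greater than
`ρ` has at most `N` elements: at most `N` of the lines through the vectors are `ρ`-separated. -/
def PackLE {n d : ℕ} (v : Fin n → EuclideanSpace ℝ (Fin d)) (ρ : ℝ) (N : ℕ) : Prop :=
  ∀ A : Finset (Fin n),
    (∀ a ∈ A, ∀ b ∈ A, a ≠ b → ρ < ‖v a - v b‖ ∧ ρ < ‖v a + v b‖) → A.card ≤ N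

/-- the function `(1 + log (1 + N))^{1/4}` -/
noncomputable def ell (N : ℕ) : ℝ := (1 + Real.log (1 + (N : ℝ))) ^ (1 / 4 : ℝ)

theorem ell_arg (N : ℕ) : (1:ℝ) ≤ 1 + Real.log (1 + (N : ℝ)) := by
  have : 0 ≤ Real.log (1 + (N : ℝ)) := Real.log_nonneg (by
    have : (0:ℝ) ≤ N := Nat.cast_nonneg _
    linarith)
  linarith

theorem one_le_ell (N : ℕ) : 1 ≤ ell N := Real.one_le_rpow (ell_arg N) (by norm_num)

theorem ell_mono {N M : ℕ} (h : N ≤ M) : ell N ≤ ell M := by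
  have h1 := ell_arg N
  apply Real.rpow_le_rpow (by linarith) _ (by norm_num)
  have : Real.log (1 + (N : ℝ)) ≤ Real.log (1 + (M : ℝ)) := by
    apply Real.log_le_log (by positivity)
    have : (N : ℝ) ≤ M := by exact_mod_cast h
    linarith
  linarith

/-- the constant -/
def K0 : ℝ := 70000000

theorem sq_norm {d : ℕ} (x : EuclideanSpace ℝ (Fin d)) : ∑ k, x k ^ 2 = ‖x‖ ^ 2 := by
  rw [EuclideanSpace.norm_sq_eq]
  simp

/-- Signings of families of short vectors. -/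
theorem base {d : ℕ} {J : Type} [Fintype J] (w : J → EuclideanSpace ℝ (Fin d)) (ρ : ℝ) (hρ : 0 < ρ)
    (hw : ∀ j, ‖w j‖ ≤ ρ) (N : ℕ) (hN : Fintype.card J ≤ N) :
    ∃ y : J → ℝ, (∀ j, y j = 1 ∨ y j = -1) ∧ ∀ k, |∑ j, y j * w j k| ≤ K0 * ρ * ell N := by
  obtain ⟨y, hy1, hy2⟩ := H422R3.Kom.komlos (fun (k : Fin d) (j : J) => w j k / ρ) (fun j => by
    simp only [div_pow]
    rw [← Finset.sum_div, sq_norm, div_le_one (by positivity)]
    exact pow_le_pow_left₀ (norm_nonneg _) (hw j) 2)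
  refine ⟨y, hy1, fun k => ?_⟩
  have h1 := hy2 k
  have h2 : ∑ j, y j * w j k = ρ * ∑ j, w j k / ρ * y j := by
    rw [Finset.mul_sum]
    apply Finset.sum_congr rfl
    intro j _
    field_simp
  rw [h2, abs_mul, abs_of_pos hρ]
  have h3 : ell (Fintype.card J) ≤ ell N := ell_mono hN
  unfold ell at h3 ⊢
  calc ρ * |∑ j, w j k / ρ * y j| ≤ ρ * (70000000 * (1 + Real.log (1 + (Fintype.card J : ℝ))) ^
        (1 / 4 : ℝ)) := mul_le_mul_of_nonneg_left h1 hρ.le
    _ ≤ ρ * (70000000 * (1 + Real.log (1 + (N : ℝ))) ^ (1 / 4 : ℝ)) := by gcongr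
    _ = _ := by unfold K0; ring

/-- Pairing: a family with at most `N` separated members is, up to at most `N` of its members, the
union of pairs of close members. -/
theorem pairing {ι : Type*} [DecidableEq ι] {d : ℕ} (v : ι → EuclideanSpace ℝ (Fin d)) (ρ : ℝ)
    (N : ℕ) : ∀ (s : ℕ) (I : Finset ι), I.card ≤ s →
    (∀ A ⊆ I, (∀ a ∈ A, ∀ b ∈ A, a ≠ b → ρ < ‖v a - v b‖ ∧ ρ < ‖v a + v b‖) → A.card ≤ N) →
    ∃ L ⊆ I, L.card ≤ N ∧ ∃ (m : ℕ) (w : Fin m → EuclideanSpace ℝ (Fin d)), m ≤ I.card ∧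
      (∀ t, ‖w t‖ ≤ ρ) ∧ ∀ (τ : Fin m → ℝ) (e : ι → ℝ), (∀ t, τ t = 1 ∨ τ t = -1) →
        (∀ i, e i = 1 ∨ e i = -1) → ∃ ε : ι → ℝ, (∀ i, ε i = 1 ∨ ε i = -1) ∧
          ∀ k, ∑ i ∈ I, ε i * v i k = ∑ i ∈ L, e i * v i k + ∑ t, τ t * w t k := by
  intro s
  induction s with
  | zero =>
    intro I hI _
    have : I = ∅ := by simpa using hI
    subst this
    exact ⟨∅, le_rfl, by simp, 0, fun t => 0, by simp, fun t => t.elim0, fun τ e _ he =>
      ⟨e, he, by simp⟩⟩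
  | succ s ih =>
    intro I hI hN
    by_cases hc : I.card ≤ N
    · exact ⟨I, le_rfl, hc, 0, fun t => 0, by simp, fun t => t.elim0, fun τ e _ he =>
        ⟨e, he, by simp⟩⟩
    · have h1 : ∃ a ∈ I, ∃ b ∈ I, a ≠ b ∧ (‖v a - v b‖ ≤ ρ ∨ ‖v a + v b‖ ≤ ρ) := by
        by_contra hcon
        push Not at hcon
        exact hc (hN I le_rfl fun a ha b hb hab => hcon a ha b hb hab)
      obtain ⟨a, ha, b, hb, hab, hd⟩ := h1
      have h2 : ∃ σ : ℝ, (σ = 1 ∨ σ = -1) ∧ ‖v a - σ • v b‖ ≤ ρ := by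
        rcases hd with h | h
        · exact ⟨1, Or.inl rfl, by simpa using h⟩
        · exact ⟨-1, Or.inr rfl, by simpa using h⟩
      obtain ⟨σ, hσ, hσd⟩ := h2
      obtain ⟨I', hI'⟩ : ∃ I' : Finset ι, I' = (I.erase a).erase b := ⟨_, rfl⟩
      have hsub : I' ⊆ I := hI' ▸ (Finset.erase_subset _ _).trans (Finset.erase_subset _ _)
      have hbI : b ∈ I.erase a := Finset.mem_erase.2 ⟨hab.symm, hb⟩
      have hcard : I'.card + 2 = I.card := by
        have e1 := Finset.card_erase_add_one ha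
        have e2 := Finset.card_erase_add_one hbI
        rw [← hI'] at e2
        omega
      obtain ⟨L, hLI, hLN, m, w, hm, hw, hstep⟩ := ih I' (by omega)
        (fun A hA => hN A (hA.trans hsub))
      refine ⟨L, hLI.trans hsub, hLN, m + 1, Fin.cons (v a - σ • v b) w, by omega, ?_, ?_⟩
      · intro t
        refine Fin.cases ?_ (fun t => ?_) t
        · simpa using hσd
        · simpa using hw t
      · intro τ e hτ he
        obtain ⟨ε, hε, hsum⟩ := hstep (fun t => τ t.succ) e (fun t => hτ _) he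
        refine ⟨fun i => if i = a then τ 0 else if i = b then -(σ * τ 0) else ε i, ?_, ?_⟩
        · intro i
          dsimp only
          split_ifs
          · exact hτ 0
          · rcases hσ with h | h <;> rcases hτ 0 with h' | h' <;> rw [h, h'] <;> norm_num
          · exact hε i
        · intro k
          have e1 : ∀ f : ι → ℝ, ∑ i ∈ I, f i = f a + (f b + ∑ i ∈ I', f i) := by
            intro f
            rw [← Finset.add_sum_erase I f ha, ← Finset.add_sum_erase (I.erase a) f hbI, hI']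
          rw [e1]
          have e2 : ∑ i ∈ I', (if i = a then τ 0 else if i = b then -(σ * τ 0) else ε i) * v i k =
              ∑ i ∈ I', ε i * v i k := by
            apply Finset.sum_congr rfl
            intro i hi
            rw [hI', Finset.mem_erase, Finset.mem_erase] at hi
            rw [if_neg hi.2.1, if_neg hi.1]
          rw [e2, hsum k, Fin.sum_univ_succ]
          simp only [if_true, if_neg hab.symm, Fin.cons_zero, Fin.cons_succ]
          simp only [PiLp.sub_apply, PiLp.smul_apply, smul_eq_mul]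
          ring

/-- Chaining: all scales together. -/
theorem chain {ι : Type} [DecidableEq ι] {d : ℕ} (v : ι → EuclideanSpace ℝ (Fin d)) (M : ℕ → ℕ) :
    ∀ (J : ℕ) (I : Finset ι), I.card ≤ M J → (∀ i ∈ I, ‖v i‖ ≤ 1) →
    (∀ j < J, ∀ A ⊆ I, (∀ a ∈ A, ∀ b ∈ A, a ≠ b →
      (1 / 2 : ℝ) ^ j < ‖v a - v b‖ ∧ (1 / 2 : ℝ) ^ j < ‖v a + v b‖) → A.card ≤ M j) →
    ∃ ε : ι → ℝ, (∀ i, ε i = 1 ∨ ε i = -1) ∧ ∀ k, |∑ i ∈ I, ε i * v i k| ≤
      K0 * (ell (M 0) + ∑ j ∈ range J, (1 / 2 : ℝ) ^ j * ell (M (j + 1))) := by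
  intro J
  induction J with
  | zero =>
    intro I hI hv _
    obtain ⟨y, hy1, hy2⟩ := base (fun i : I => v i.1) 1 one_pos (fun i => hv i.1 i.2) (M 0)
      (by rw [Fintype.card_coe]; exact hI)
    refine ⟨fun i => if h : i ∈ I then y ⟨i, h⟩ else 1, ?_, ?_⟩
    · intro i
      dsimp only
      split_ifs
      · exact hy1 _
      · exact Or.inl rfl
    · intro k
      have h1 := hy2 k
      rw [← Finset.sum_coe_sort I]
      have h2 : ∀ i : I, (if h : i.1 ∈ I then y ⟨i.1, h⟩ else 1) * v i.1 k = y i * v i.1 k := by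
        intro i
        rw [dif_pos i.2]
      simp only [h2]
      simpa using h1
  | succ J ih =>
    intro I hI hv hM
    obtain ⟨L, hLI, hLN, m, w, hm, hw, hstep⟩ := pairing v ((1 / 2 : ℝ) ^ J) (M J) I.card I le_rfl
      (hM J (Nat.lt_succ_self J))
    obtain ⟨e, he, hesum⟩ := ih L hLN (fun i hi => hv i (hLI hi))
      (fun j hj A hA => hM j (by omega) A (hA.trans hLI))
    obtain ⟨τ, hτ, hτsum⟩ := base w ((1 / 2 : ℝ) ^ J) (by positivity) hw (M (J + 1))
      (by rw [Fintype.card_fin]; exact hm.trans hI)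
    obtain ⟨ε, hε, hsum⟩ := hstep τ e hτ he
    refine ⟨ε, hε, fun k => ?_⟩
    rw [hsum k, Finset.sum_range_succ]
    refine (abs_add_le _ _).trans ?_
    have h1 := hesum k
    have h2 := hτsum k
    linarith

/-- The bound for all subfamilies. -/
theorem hered {ι : Type} [DecidableEq ι] {d : ℕ} (v : ι → EuclideanSpace ℝ (Fin d)) (M : ℕ → ℕ)
    (I : Finset ι) (hv : ∀ i ∈ I, ‖v i‖ ≤ 1)
    (hM : ∀ j, ∀ A ⊆ I, (∀ a ∈ A, ∀ b ∈ A, a ≠ b →
      (1 / 2 : ℝ) ^ j < ‖v a - v b‖ ∧ (1 / 2 : ℝ) ^ j < ‖v a + v b‖) → A.card ≤ M j)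
    (S : ℝ) (hS : ∀ J, ∑ j ∈ range J, (1 / 2 : ℝ) ^ j * ell (M j) ≤ S) :
    ∃ ε : ι → ℝ, (∀ i, ε i = 1 ∨ ε i = -1) ∧ ∀ k, |∑ i ∈ I, ε i * v i k| ≤ K0 * (3 * S) := by
  obtain ⟨J, hJ⟩ : ∃ J : ℕ, (1 / 2 : ℝ) ^ J * ell I.card ≤ 1 := by
    obtain ⟨J, hJ⟩ := exists_pow_lt_of_lt_one (show (0:ℝ) < 1 / ell I.card by
      have := one_le_ell I.card
      positivity) (show (1 / 2 : ℝ) < 1 by norm_num)
    refine ⟨J, ?_⟩
    have := one_le_ell I.card
    rw [lt_div_iff₀ (by linarith)] at hJ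
    exact hJ.le
  obtain ⟨L, hLI, hLN, m, w, hm, hw, hstep⟩ := pairing v ((1 / 2 : ℝ) ^ J) (M J) I.card I le_rfl
    (hM J)
  obtain ⟨e, he, hesum⟩ := chain v M J L hLN (fun i hi => hv i (hLI hi))
    (fun j _ A hA => hM j A (hA.trans hLI))
  obtain ⟨τ, hτ, hτsum⟩ := base w ((1 / 2 : ℝ) ^ J) (by positivity) hw I.card
    (by rw [Fintype.card_fin]; exact hm)
  obtain ⟨ε, hε, hsum⟩ := hstep τ e hτ he
  refine ⟨ε, hε, fun k => ?_⟩
  rw [hsum k]
  refine (abs_add_le _ _).trans ?_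
  have h1 := hesum k
  have h2 := hτsum k
  have h3 : (1:ℝ) ≤ ell (M 0) := one_le_ell _
  have h4 := hS (J + 1)
  rw [Finset.sum_range_succ'] at h4
  have h5 : ∑ j ∈ range J, (1 / 2 : ℝ) ^ j * ell (M (j + 1)) =
      2 * ∑ j ∈ range J, (1 / 2 : ℝ) ^ (j + 1) * ell (M (j + 1)) := by
    rw [Finset.mul_sum]
    apply Finset.sum_congr rfl
    intro j _
    rw [pow_succ]; ring
  have h6 : 0 ≤ ∑ j ∈ range J, (1 / 2 : ℝ) ^ (j + 1) * ell (M (j + 1)) := by
    apply Finset.sum_nonneg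
    intro j _
    have := one_le_ell (M (j + 1))
    positivity
  simp only [pow_zero, one_mul] at h4
  have h7 : (0:ℝ) < K0 := by norm_num [K0]
  have h8 : K0 * (1 / 2 : ℝ) ^ J * ell I.card ≤ K0 * 1 := by
    rw [mul_assoc]
    exact mul_le_mul_of_nonneg_left hJ h7.le
  have h9 : K0 * (ell (M 0) + ∑ j ∈ range J, (1 / 2 : ℝ) ^ j * ell (M (j + 1))) + K0 * 1 ≤
      K0 * (3 * S) := by
    rw [← mul_add]
    apply mul_le_mul_of_nonneg_left _ h7.le
    rw [h5]
    linarith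
  linarith

end Pool.Agent.U515.KE
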