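import Pool.Agent.U515.KE.Lin

/-!
# Families whose entropy numbers grow like a power
-/

namespace Pool.Agent.U515.KE

open Finset

theorem geo_le {r : ℝ} (h0 : 0 ≤ r) (h1 : r < 1) (J : ℕ) : ∑ j ∈ range J, r ^ j ≤ 1 / (1 - r) := by
  rw [one_div, ← tsum_geometric_of_lt_one h0 h1]
  exact (summable_geometric_of_lt_one h0 h1).sum_le_tsum _ (fun j _ => pow_nonneg h0 j)

theorem geo_rev {r : ℝ} (h0 : 0 ≤ r) (h1 : r < 1) (m : ℕ) :
    ∑ j ∈ range (m + 1), r ^ (m - j) ≤ 1 / (1 - r) := by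
  have h := Finset.sum_range_reflect (fun j => r ^ j) (m + 1)
  have h2 : ∑ j ∈ range (m + 1), r ^ (m - j) = ∑ j ∈ range (m + 1), r ^ (m + 1 - 1 - j) := by
    apply Finset.sum_congr rfl
    intro j _
    rw [Nat.add_sub_cancel]
  rw [h2, h]
  exact geo_le h0 h1 _

/-- powers of `A 2^{α j}` -/
theorem quarter (A α : ℝ) (hA : 0 < A) (j : ℕ) (x : ℝ) (hx0 : 0 ≤ x)
    (hx : x ≤ A * ((1 / 2 : ℝ) ^ j) ^ (-α)) :
    (1 / 2 : ℝ) ^ j * x ^ (1 / 4 : ℝ) ≤ A ^ (1 / 4 : ℝ) * ((2:ℝ) ^ (α / 4 - 1)) ^ j := by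
  have h1 : x ^ (1 / 4 : ℝ) ≤ (A * ((1 / 2 : ℝ) ^ j) ^ (-α)) ^ (1 / 4 : ℝ) :=
    Real.rpow_le_rpow hx0 hx (by norm_num)
  have h2 : ((1 / 2 : ℝ) ^ j) = (2:ℝ) ^ (-(j:ℝ)) := by
    rw [Real.rpow_neg (by norm_num), Real.rpow_natCast, one_div, inv_pow]
  have h3 : (A * ((1 / 2 : ℝ) ^ j) ^ (-α)) ^ (1 / 4 : ℝ) =
      A ^ (1 / 4 : ℝ) * (2:ℝ) ^ (α * j / 4) := by
    rw [Real.mul_rpow hA.le (by positivity), h2, ← Real.rpow_mul (by norm_num),
      ← Real.rpow_mul (by norm_num)]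
    congr 2
    ring
  rw [h3] at h1
  calc (1 / 2 : ℝ) ^ j * x ^ (1 / 4 : ℝ) ≤ (1 / 2 : ℝ) ^ j *
        (A ^ (1 / 4 : ℝ) * (2:ℝ) ^ (α * j / 4)) := mul_le_mul_of_nonneg_left h1 (by positivity)
    _ = A ^ (1 / 4 : ℝ) * ((2:ℝ) ^ (-(j:ℝ)) * (2:ℝ) ^ (α * j / 4)) := by rw [h2]; ring
    _ = A ^ (1 / 4 : ℝ) * ((2:ℝ) ^ (α / 4 - 1)) ^ j := by
        rw [← Real.rpow_add (by norm_num), ← Real.rpow_natCast, ← Real.rpow_mul (by norm_num)]
        congr 2
        ring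

/-- The scales `j ≤ m` and `j > m`, where `2^{α m} ≤ L / A < 2^{α (m+1)}`. -/
theorem split_sum (A α L : ℝ) (hA : 1 ≤ A) (hα : 0 < α) (hL : 1 ≤ L) (J : ℕ) (f : ℕ → ℝ)
    (h0 : ∀ j, 0 ≤ f j)
    (h2 : ∀ j, f j ≤ (1 / 2 : ℝ) ^ j * L ^ (1 / 4 : ℝ)) :
    ∃ m : ℕ, (m : ℝ) ≤ 1 / α * Real.logb 2 (max 1 (L / A)) ∧
      ∑ j ∈ range J, f j ≤ ∑ j ∈ range (m + 1), f j +
        2 * (A ^ (1 / α) * L ^ (1 / 4 - 1 / α)) := by
  set j0 : ℝ := 1 / α * Real.logb 2 (max 1 (L / A)) with hj0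
  have hlog : 0 ≤ Real.logb 2 (max 1 (L / A)) := Real.logb_nonneg (by norm_num) (le_max_left _ _)
  have hj00 : 0 ≤ j0 := by positivity
  refine ⟨⌊j0⌋₊, Nat.floor_le hj00, ?_⟩
  have hV : (1 / 2 : ℝ) ^ (⌊j0⌋₊ + 1) * L ^ (1 / 4 : ℝ) ≤ A ^ (1 / α) * L ^ (1 / 4 - 1 / α) := by
    have e1 : (1 / 2 : ℝ) ^ (⌊j0⌋₊ + 1) ≤ (2:ℝ) ^ (-j0) := by
      have e2 : ((1 / 2 : ℝ) ^ (⌊j0⌋₊ + 1)) = (2:ℝ) ^ (-(((⌊j0⌋₊ + 1 : ℕ)) : ℝ)) := by
        rw [Real.rpow_neg (by norm_num), Real.rpow_natCast, one_div, inv_pow]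
      rw [e2]
      apply Real.rpow_le_rpow_of_exponent_le (by norm_num)
      have := Nat.lt_floor_add_one j0
      push_cast
      linarith
    have e3 : (2:ℝ) ^ (-j0) = (max 1 (L / A)) ^ (-(1 / α)) := by
      have hm : 0 < max 1 (L / A) := lt_of_lt_of_le one_pos (le_max_left _ _)
      rw [hj0, ← neg_mul, mul_comm, Real.rpow_mul (by norm_num),
        Real.rpow_logb (by norm_num) (by norm_num) hm]
    have e4 : (max 1 (L / A)) ^ (-(1 / α)) ≤ (L / A) ^ (-(1 / α)) := by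
      apply Real.rpow_le_rpow_of_nonpos (by positivity) (le_max_right _ _)
      have : 0 < 1 / α := by positivity
      linarith
    have e5 : (L / A) ^ (-(1 / α)) * L ^ (1 / 4 : ℝ) = A ^ (1 / α) * L ^ (1 / 4 - 1 / α) := by
      rw [Real.div_rpow (by linarith) (by linarith), Real.rpow_neg (by linarith : (0:ℝ) ≤ A),
        div_inv_eq_mul, sub_eq_add_neg, Real.rpow_add (by linarith), ]
      ring
    rw [← e5]
    apply mul_le_mul_of_nonneg_right _ (by positivity)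
    exact e1.trans (e3.le.trans e4)
  by_cases hJ : J ≤ ⌊j0⌋₊ + 1
  · have h3 : ∑ j ∈ range J, f j ≤ ∑ j ∈ range (⌊j0⌋₊ + 1), f j :=
      Finset.sum_le_sum_of_subset_of_nonneg (Finset.range_mono hJ) (fun j _ _ => h0 j)
    have h4 : 0 ≤ A ^ (1 / α) * L ^ (1 / 4 - 1 / α) := by positivity
    linarith
  · push Not at hJ
    obtain ⟨t, ht⟩ := Nat.exists_eq_add_of_le hJ.le
    rw [ht, Finset.sum_range_add]
    have h3 : ∑ j ∈ range t, f (⌊j0⌋₊ + 1 + j) ≤ 2 * (A ^ (1 / α) * L ^ (1 / 4 - 1 / α)) := by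
      calc ∑ j ∈ range t, f (⌊j0⌋₊ + 1 + j) ≤ ∑ j ∈ range t, (1 / 2 : ℝ) ^ j *
            ((1 / 2 : ℝ) ^ (⌊j0⌋₊ + 1) * L ^ (1 / 4 : ℝ)) := by
            apply Finset.sum_le_sum
            intro j _
            refine (h2 _).trans (le_of_eq ?_)
            rw [pow_add]; ring
        _ = (∑ j ∈ range t, (1 / 2 : ℝ) ^ j) * ((1 / 2 : ℝ) ^ (⌊j0⌋₊ + 1) * L ^ (1 / 4 : ℝ)) := by
            rw [Finset.sum_mul]
        _ ≤ 2 * (A ^ (1 / α) * L ^ (1 / 4 - 1 / α)) := by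
            apply mul_le_mul _ hV (by positivity) (by norm_num)
            have := geo_le (r := 1 / 2) (by norm_num) (by norm_num) t
            norm_num at this ⊢
            exact this
    linarith

section

variable {n d : ℕ} (v : Fin n → EuclideanSpace ℝ (Fin d)) (hv : ∀ i, ‖v i‖ ≤ 1) (A α : ℝ)
  (hA : ∀ ρ : ℝ, 0 < ρ → ρ ≤ 1 → ∃ N : ℕ, PackLE v ρ N ∧
    1 + Real.log (1 + (N : ℝ)) ≤ A * ρ ^ (-α))

include hA in
theorem A_ge : 1 ≤ A := by
  obtain ⟨N, _, hN⟩ := hA 1 one_pos le_rfl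
  rw [Real.one_rpow, mul_one] at hN
  exact (ell_arg N).trans hN

include hA in
theorem exists_N : ∃ N : ℕ → ℕ, (∀ j, PackLE v ((1 / 2) ^ j) (N j)) ∧
    ∀ j, 1 + Real.log (1 + (N j : ℝ)) ≤ A * ((1 / 2 : ℝ) ^ j) ^ (-α) := by
  choose N hN1 hN2 using fun j : ℕ => hA ((1 / 2) ^ j) (by positivity)
    (pow_le_one₀ (by norm_num) (by norm_num))
  exact ⟨N, hN1, hN2⟩

include hA in
/-- the terms of the entropy sum -/
theorem terms (N : ℕ → ℕ) (hN : ∀ j, 1 + Real.log (1 + (N j : ℝ)) ≤ A * ((1 / 2 : ℝ) ^ j) ^ (-α))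
    (j : ℕ) :
    (1 / 2 : ℝ) ^ j * ell (min (N j) (min n d)) ≤
      A ^ (1 / 4 : ℝ) * ((2:ℝ) ^ (α / 4 - 1)) ^ j := by
  have h1 := A_ge v A α hA
  apply quarter A α (by linarith) j _ (by have := ell_arg (min (N j) (min n d)); linarith)
  refine le_trans ?_ (hN j)
  have h2 : ((min (N j) (min n d) : ℕ) : ℝ) ≤ N j := by exact_mod_cast min_le_left _ _
  have h3 : Real.log (1 + ((min (N j) (min n d) : ℕ) : ℝ)) ≤ Real.log (1 + (N j : ℝ)) :=
    Real.log_le_log (by positivity) (by linarith)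
  linarith

theorem terms2 (N : ℕ → ℕ) (j : ℕ) :
    (1 / 2 : ℝ) ^ j * ell (min (N j) (min n d)) ≤
      (1 / 2 : ℝ) ^ j * (1 + Real.log (1 + ((min n d : ℕ) : ℝ))) ^ (1 / 4 : ℝ) := by
  apply mul_le_mul_of_nonneg_left _ (by positivity)
  exact ell_mono (min_le_right _ _)

include hv hA in
theorem case_lt (h4 : α < 4) :
    RoundsWithin v (6 * K0 * (1 / (1 - (2:ℝ) ^ (α / 4 - 1))) * A ^ (1 / 4 : ℝ)) := by
  obtain ⟨N, hN1, hN2⟩ := exists_N v A α hA
  have h0 : (0:ℝ) ≤ (2:ℝ) ^ (α / 4 - 1) := by positivity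
  have h1 : (2:ℝ) ^ (α / 4 - 1) < 1 := by
    apply Real.rpow_lt_one_of_one_lt_of_neg (by norm_num)
    linarith
  have h2 := main1 v hv N hN1 (1 / (1 - (2:ℝ) ^ (α / 4 - 1)) * A ^ (1 / 4 : ℝ)) (fun J => by
    have h5 := A_ge v A α hA
    calc ∑ j ∈ range J, (1 / 2 : ℝ) ^ j * ell (min (N j) (min n d)) ≤
        ∑ j ∈ range J, A ^ (1 / 4 : ℝ) * ((2:ℝ) ^ (α / 4 - 1)) ^ j :=
          Finset.sum_le_sum fun j _ => terms v A α hA N hN2 j
      _ = (∑ j ∈ range J, ((2:ℝ) ^ (α / 4 - 1)) ^ j) * A ^ (1 / 4 : ℝ) := by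
          rw [← Finset.mul_sum, mul_comm]
      _ ≤ _ := mul_le_mul_of_nonneg_right (geo_le h0 h1 J) (by positivity))
  rwa [← mul_assoc] at h2

include hv hA in
theorem case_gt (h4 : 4 < α) :
    RoundsWithin v (6 * K0 * (1 / (1 - (2:ℝ) ^ (-(α / 4 - 1))) + 2) *
      (A ^ (1 / α) * (1 + Real.log (1 + ((min n d : ℕ) : ℝ))) ^ (1 / 4 - 1 / α))) := by
  obtain ⟨N, hN1, hN2⟩ := exists_N v A α hA
  have hA1 := A_ge v A α hA
  have h0 : (0:ℝ) ≤ (2:ℝ) ^ (-(α / 4 - 1)) := by positivity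
  have h1 : (2:ℝ) ^ (-(α / 4 - 1)) < 1 := by
    apply Real.rpow_lt_one_of_one_lt_of_neg (by norm_num)
    linarith
  set L : ℝ := 1 + Real.log (1 + ((min n d : ℕ) : ℝ)) with hL
  have hL1 : 1 ≤ L := ell_arg _
  have h2 := main1 v hv N hN1 ((1 / (1 - (2:ℝ) ^ (-(α / 4 - 1))) + 2) *
      (A ^ (1 / α) * L ^ (1 / 4 - 1 / α))) (fun J => by
    obtain ⟨m, hm, hsum⟩ := split_sum A α L hA1 (by linarith) hL1 J
      (fun j => (1 / 2 : ℝ) ^ j * ell (min (N j) (min n d)))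
      (fun j => by have := one_le_ell (min (N j) (min n d)); positivity) (terms2 N)
    refine hsum.trans ?_
    rw [add_mul]
    apply add_le_add _ le_rfl
    by_cases hLA : L ≤ A
    · -- only the scale `j = 0`
      have hm0 : m = 0 := by
        have : max 1 (L / A) = 1 := max_eq_left (by rw [div_le_one (by linarith)]; exact hLA)
        rw [this, Real.logb_one, mul_zero] at hm
        have : (m : ℝ) = 0 := le_antisymm hm (Nat.cast_nonneg _)
        exact_mod_cast this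
      subst hm0
      rw [zero_add, Finset.sum_range_one]
      have e1 := terms2 (n := n) (d := d) N 0
      rw [← hL] at e1
      simp only [pow_zero, one_mul] at e1 ⊢
      have e2 : L ^ (1 / 4 : ℝ) ≤ A ^ (1 / α) * L ^ (1 / 4 - 1 / α) := by
        have : L ^ (1 / 4 : ℝ) = L ^ (1 / α) * L ^ (1 / 4 - 1 / α) := by
          rw [← Real.rpow_add (by linarith)]
          congr 1
          ring
        rw [this]
        apply mul_le_mul_of_nonneg_right _ (by positivity)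
        exact Real.rpow_le_rpow (by linarith) hLA (by positivity)
      have e3 : 1 ≤ 1 / (1 - (2:ℝ) ^ (-(α / 4 - 1))) := by
        rw [le_div_iff₀ (by linarith)]
        linarith
      have e4 : 0 ≤ A ^ (1 / α) * L ^ (1 / 4 - 1 / α) := by positivity
      calc ell (min (N 0) (min n d)) ≤ L ^ (1 / 4 : ℝ) := e1
        _ ≤ 1 * (A ^ (1 / α) * L ^ (1 / 4 - 1 / α)) := by linarith
        _ ≤ _ := mul_le_mul_of_nonneg_right e3 e4
    · push Not at hLA
      have hmax : max 1 (L / A) = L / A := max_eq_right (by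
        rw [le_div_iff₀ (by linarith)]; linarith)
      rw [hmax] at hm
      have e1 : A ^ (1 / 4 : ℝ) * ((2:ℝ) ^ (α / 4 - 1)) ^ m ≤
          A ^ (1 / α) * L ^ (1 / 4 - 1 / α) := by
        have e2 : ((2:ℝ) ^ (α / 4 - 1)) ^ m ≤ (L / A) ^ (1 / 4 - 1 / α) := by
          rw [← Real.rpow_natCast, ← Real.rpow_mul (by norm_num)]
          calc (2:ℝ) ^ ((α / 4 - 1) * (m : ℝ)) ≤
              (2:ℝ) ^ ((α / 4 - 1) * (1 / α * Real.logb 2 (L / A))) := by
                apply Real.rpow_le_rpow_of_exponent_le (by norm_num)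
                apply mul_le_mul_of_nonneg_left hm
                linarith
            _ = (2:ℝ) ^ (Real.logb 2 (L / A) * (1 / 4 - 1 / α)) := by
                congr 1
                have : α ≠ 0 := by linarith
                field_simp
            _ = _ := by
                rw [Real.rpow_mul (by norm_num), Real.rpow_logb (by norm_num) (by norm_num)
                  (by positivity)]
        calc A ^ (1 / 4 : ℝ) * ((2:ℝ) ^ (α / 4 - 1)) ^ m ≤
            A ^ (1 / 4 : ℝ) * (L / A) ^ (1 / 4 - 1 / α) :=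
              mul_le_mul_of_nonneg_left e2 (by positivity)
          _ = A ^ (1 / α) * L ^ (1 / 4 - 1 / α) := by
              rw [Real.div_rpow (by linarith) (by linarith)]
              have : A ^ (1 / 4 : ℝ) = A ^ (1 / α) * A ^ (1 / 4 - 1 / α) := by
                rw [← Real.rpow_add (by linarith)]
                congr 1
                ring
              rw [this]
              have : A ^ (1 / 4 - 1 / α) ≠ 0 := by positivity
              field_simp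
      calc ∑ j ∈ range (m + 1), (1 / 2 : ℝ) ^ j * ell (min (N j) (min n d)) ≤
          ∑ j ∈ range (m + 1), A ^ (1 / 4 : ℝ) * ((2:ℝ) ^ (α / 4 - 1)) ^ j :=
            Finset.sum_le_sum fun j _ => terms v A α hA N hN2 j
        _ = ∑ j ∈ range (m + 1), ((2:ℝ) ^ (-(α / 4 - 1))) ^ (m - j) *
              (A ^ (1 / 4 : ℝ) * ((2:ℝ) ^ (α / 4 - 1)) ^ m) := by
            apply Finset.sum_congr rfl
            intro j hj
            rw [Finset.mem_range] at hj
            have e5 : (2:ℝ) ^ (-(α / 4 - 1)) = ((2:ℝ) ^ (α / 4 - 1))⁻¹ :=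
              Real.rpow_neg (by norm_num) _
            have e6 : ((2:ℝ) ^ (α / 4 - 1)) ^ m =
                ((2:ℝ) ^ (α / 4 - 1)) ^ (m - j) * ((2:ℝ) ^ (α / 4 - 1)) ^ j := by
              rw [← pow_add]
              congr 1
              omega
            have e7 : ((2:ℝ) ^ (α / 4 - 1)) ^ (m - j) ≠ 0 := by positivity
            rw [e5, e6, inv_pow]
            field_simp
        _ = (∑ j ∈ range (m + 1), ((2:ℝ) ^ (-(α / 4 - 1))) ^ (m - j)) *
              (A ^ (1 / 4 : ℝ) * ((2:ℝ) ^ (α / 4 - 1)) ^ m) := by rw [Finset.sum_mul]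
        _ ≤ 1 / (1 - (2:ℝ) ^ (-(α / 4 - 1))) * (A ^ (1 / α) * L ^ (1 / 4 - 1 / α)) :=
            mul_le_mul (geo_rev h0 h1 m) e1 (by positivity) (by
              have : 0 < 1 - (2:ℝ) ^ (-(α / 4 - 1)) := by linarith
              positivity))
  rwa [← mul_assoc] at h2

include hv in
theorem case_eq (hA : ∀ ρ : ℝ, 0 < ρ → ρ ≤ 1 → ∃ N : ℕ, PackLE v ρ N ∧
      1 + Real.log (1 + (N : ℝ)) ≤ A * ρ ^ (-(4:ℝ))) :
    RoundsWithin v (18 * K0 * (A ^ (1 / 4 : ℝ) *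
      (1 + Real.log (1 + Real.log (1 + ((min n d : ℕ) : ℝ)))))) := by
  obtain ⟨N, hN1, hN2⟩ := exists_N v A 4 hA
  have hA1 := A_ge v A 4 hA
  set L : ℝ := 1 + Real.log (1 + ((min n d : ℕ) : ℝ)) with hL
  have hL1 : 1 ≤ L := ell_arg _
  have hlL : 0 ≤ Real.log L := Real.log_nonneg hL1
  have h2 := main1 v hv N hN1 (3 * (A ^ (1 / 4 : ℝ) * (1 + Real.log L))) (fun J => by
    obtain ⟨m, hm, hsum⟩ := split_sum A 4 L hA1 (by norm_num) hL1 J
      (fun j => (1 / 2 : ℝ) ^ j * ell (min (N j) (min n d)))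
      (fun j => by have := one_le_ell (min (N j) (min n d)); positivity) (terms2 N)
    refine hsum.trans ?_
    have e0 : (1 / 4 - 1 / (4:ℝ)) = 0 := by norm_num
    rw [e0, Real.rpow_zero, mul_one]
    have e1 : ∑ j ∈ range (m + 1), (1 / 2 : ℝ) ^ j * ell (min (N j) (min n d)) ≤
        (m + 1) * A ^ (1 / 4 : ℝ) := by
      calc ∑ j ∈ range (m + 1), (1 / 2 : ℝ) ^ j * ell (min (N j) (min n d)) ≤
          ∑ j ∈ range (m + 1), A ^ (1 / 4 : ℝ) * ((2:ℝ) ^ ((4:ℝ) / 4 - 1)) ^ j :=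
            Finset.sum_le_sum fun j _ => terms v A 4 hA N hN2 j
        _ = ∑ j ∈ range (m + 1), A ^ (1 / 4 : ℝ) := by
            apply Finset.sum_congr rfl
            intro j _
            norm_num
        _ = (m + 1) * A ^ (1 / 4 : ℝ) := by
            rw [Finset.sum_const, Finset.card_range, nsmul_eq_mul]
            push_cast
            ring
    have e2 : (m : ℝ) ≤ Real.log L := by
      refine hm.trans ?_
      have e3 : Real.logb 2 (max 1 (L / A)) ≤ Real.logb 2 L := by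
        apply Real.logb_le_logb_of_le (by norm_num) (lt_of_lt_of_le one_pos (le_max_left _ _))
        apply max_le hL1
        rw [div_le_iff₀ (by linarith)]
        nlinarith
      have e4 : Real.logb 2 L ≤ 2 * Real.log L := by
        unfold Real.logb
        rw [div_le_iff₀ (Real.log_pos (by norm_num))]
        have := Real.log_two_gt_d9
        nlinarith
      linarith
    have e5 : 0 < A ^ (1 / 4 : ℝ) := by positivity
    nlinarith)
  have e6 : 6 * K0 * (3 * (A ^ (1 / 4 : ℝ) * (1 + Real.log L))) =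
      18 * K0 * (A ^ (1 / 4 : ℝ) * (1 + Real.log L)) := by ring
  rwa [e6] at h2

end

end Pool.Agent.U515.KE
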